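import Mathlib
import Pool.Agent.H755R3.Syl

/-! The number of conjugacy classes of a finite solvable group is at most the product of the
numbers of conjugacy classes of its Sylow subgroups. -/

set_option autoImplicit false

namespace Pool.Agent.Results.MP_6bd831_al.SolvableCase

/-- For a finite solvable group `G`, the number of conjugacy classes of `G` is at most the product,
over the primes `p` dividing `|G|`, of the number of conjugacy classes of a Sylow `p`-subgroup. -/
theorem result : ∀ (G : Type) [Group G] [Finite G] [Group.IsSolvable G] (f : ℕ → ℕ),
    (∀ p ∈ (Nat.card G).primeFactors,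
      ∃ P : Sylow p G, f p = Nat.card (ConjClasses ↥(P : Subgroup G))) →
    Nat.card (ConjClasses G) ≤ ∏ p ∈ (Nat.card G).primeFactors, f p := by
  intro G _ _ _ f hf
  exact Pool.Agent.H755R3.sylow_le _ G rfl f hf

end Pool.Agent.Results.MP_6bd831_al.SolvableCase
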